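import Pool.Agent.helper14.Kus3.NumCon

/-!
# Kusner's question: closeness of the derived numbers (section N5 of the checker)
-/

open Set Metric MeasureTheory
open scoped ContDiff Topology

namespace Kusner.Num.P

/-- Product of two approximated numbers. -/
theorem near_mul {δ x y x' y' : ℝ} (hx : |x - x'| ≤ δ) (hy : |y - y'| ≤ δ) :
    |x * y - x' * y'| ≤ (|x'| + |y'| + δ) * δ := by
  have hδ : 0 ≤ δ := le_trans (abs_nonneg _) hx
  have h1 : x * y - x' * y' = (x - x') * (y - y') + (x - x') * y' + x' * (y - y') := by ring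
  rw [h1]
  have h2 : |(x - x') * (y - y')| ≤ δ * δ := by
    rw [abs_mul]; exact mul_le_mul hx hy (abs_nonneg _) hδ
  have h3 : |(x - x') * y'| ≤ δ * |y'| := by
    rw [abs_mul]; exact mul_le_mul_of_nonneg_right hx (abs_nonneg _)
  have h4 : |x' * (y - y')| ≤ |x'| * δ := by
    rw [abs_mul]; exact mul_le_mul_of_nonneg_left hy (abs_nonneg _)
  have h5 := abs_add_le ((x - x') * (y - y') + (x - x') * y') (x' * (y - y'))
  have h6 := abs_add_le ((x - x') * (y - y')) ((x - x') * y')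
  nlinarith

theorem inner_E3 (u v : E3) : (inner ℝ u v : ℝ) = u 0 * v 0 + u 1 * v 1 + u 2 * v 2 := by
  rw [PiLp.inner_apply, Fin.sum_univ_three]
  simp only [RCLike.inner_apply, conj_trivial]
  ring

theorem near_dot {δ : ℚ} {u v : E3} {u' v' : Q3} (hu : Near3 δ u u') (hv : Near3 δ v v') :
    |(inner ℝ u v : ℝ) - ((u'.dot v' : ℚ) : ℝ)| ≤ ((eD δ u' v' : ℚ) : ℝ) := by
  obtain ⟨hu0, hu1, hu2⟩ := hu
  obtain ⟨hv0, hv1, hv2⟩ := hv
  have h0 := near_mul hu0 hv0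
  have h1 := near_mul hu1 hv1
  have h2 := near_mul hu2 hv2
  rw [inner_E3]
  have e1 : ((u'.dot v' : ℚ) : ℝ) = (u'.x : ℝ) * v'.x + u'.y * v'.y + u'.z * v'.z := by
    unfold Q3.dot; push_cast; ring
  have e2 : ((eD δ u' v' : ℚ) : ℝ) = (|(u'.x : ℝ)| + |(v'.x : ℝ)| + δ) * δ +
      (|(u'.y : ℝ)| + |(v'.y : ℝ)| + δ) * δ + (|(u'.z : ℝ)| + |(v'.z : ℝ)| + δ) * δ := by
    unfold eD; push_cast; ring
  rw [e1, e2]
  have h3 : u 0 * v 0 + u 1 * v 1 + u 2 * v 2 -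
      ((u'.x : ℝ) * v'.x + u'.y * v'.y + u'.z * v'.z) =
      (u 0 * v 0 - (u'.x : ℝ) * v'.x) + (u 1 * v 1 - (u'.y : ℝ) * v'.y) +
        (u 2 * v 2 - (u'.z : ℝ) * v'.z) := by ring
  rw [h3]
  exact le_trans (abs_add_three _ _ _) (by linarith)

theorem eD_nonneg {δ : ℚ} (hδ : 0 ≤ δ) (u v : Q3) : 0 ≤ eD δ u v := by
  unfold eD; positivity

/-- Quotient of two approximated numbers. -/
theorem near_div {D D' W W' d w : ℝ} (hD : |D - D'| ≤ d) (hW : |W - W'| ≤ w)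
    (hpos : 0 < W' - w) : |D / W - D' / W'| ≤ (d + |D' / W'| * w) / (W' - w) := by
  have hw : 0 ≤ w := le_trans (abs_nonneg _) hW
  have hW'0 : 0 < W' := by linarith
  have hWge : W' - w ≤ W := by
    have := (abs_le.mp hW).1; linarith
  have hW0 : 0 < W := lt_of_lt_of_le hpos hWge
  have h1 : D / W - D' / W' = ((D - D') + D' / W' * (W' - W)) / W := by
    field_simp; ring
  rw [h1, abs_div, abs_of_pos hW0]
  have h2 : |(D - D') + D' / W' * (W' - W)| ≤ d + |D' / W'| * w := by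
    refine le_trans (abs_add_le _ _) ?_
    rw [abs_mul]
    have h3 : |W' - W| ≤ w := by rw [abs_sub_comm]; exact hW
    have h4 := mul_le_mul_of_nonneg_left h3 (abs_nonneg (D' / W'))
    linarith
  have h5 : 0 ≤ d + |D' / W'| * w := le_trans (abs_nonneg _) h2
  exact div_le_div₀ h5 h2 hpos hWge

theorem near_abs {δ x x' : ℝ} (h : |x - x'| ≤ δ) : |x| ≤ |x'| + δ := by
  have h1 : x = x' + (x - x') := by ring
  have h2 := abs_add_le x' (x - x')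
  rw [← h1] at h2
  linarith

theorem near_qc {δ ε : ℚ} (_hδ : 0 ≤ δ) {f : QFilm} {w0 wt : ℝ} {wv a b : E3} {cons : List Con}
    (h : FilmClose δ f w0 wt wv a b cons) {g : Con} {q : QCon} (hg : NearC δ g q)
    (hok : nearOK f δ ε q = true) :
    |cP wt wv g - ((f.qc q).P : ℝ)| ≤ (ε : ℝ) ∧ |cQ w0 wv g - ((f.qc q).Q : ℝ)| ≤ (ε : ℝ) ∧
      |(inner ℝ g.u a : ℝ) - ((f.qc q).b1 : ℝ)| ≤ (ε : ℝ) ∧
      |(inner ℝ g.u b : ℝ) - ((f.qc q).b2 : ℝ)| ≤ (ε : ℝ) := by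
  obtain ⟨hg0, hgu, hgt⟩ := hg
  simp only [nearOK, Bool.and_eq_true, decide_eq_true_eq] at hok
  obtain ⟨⟨⟨⟨hpos, hP⟩, hQ⟩, ha⟩, hb⟩ := hok
  have hW : |‖wv‖ ^ 2 - ((f.W2 : ℚ) : ℝ)| ≤ ((eD δ f.wv f.wv : ℚ) : ℝ) := by
    have := near_dot h.wv h.wv
    rw [real_inner_self_eq_norm_sq] at this
    exact this
  have hD := near_dot hgu h.wv
  have hpos' : (0 : ℝ) < ((f.W2 : ℚ) : ℝ) - ((eD δ f.wv f.wv : ℚ) : ℝ) := by exact_mod_cast hpos
  have hq := near_div hD hW hpos'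
  set D : ℝ := inner ℝ g.u wv with hDdef
  have hqc : ((q.u.dot f.wv / f.W2 : ℚ) : ℝ) = ((q.u.dot f.wv : ℚ) : ℝ) / ((f.W2 : ℚ) : ℝ) := by
    push_cast; ring
  set Q' : ℝ := ((q.u.dot f.wv : ℚ) : ℝ) / ((f.W2 : ℚ) : ℝ) with hQ'
  set eq' : ℝ := (((eD δ q.u f.wv : ℚ) : ℝ) + |Q'| * ((eD δ f.wv f.wv : ℚ) : ℝ)) /
    (((f.W2 : ℚ) : ℝ) - ((eD δ f.wv f.wv : ℚ) : ℝ)) with heq'
  have hP' : |Q'| * δ + (|(f.wt : ℝ)| + δ) * eq' + δ ≤ (ε : ℝ) := by
    have := (Rat.cast_le (K := ℝ)).mpr hP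
    push_cast at this
    rw [heq', hQ']
    exact this
  have hQQ : (δ : ℝ) + |Q'| * δ + (|(f.w0 : ℝ)| + δ) * eq' ≤ (ε : ℝ) := by
    have := (Rat.cast_le (K := ℝ)).mpr hQ
    push_cast at this
    rw [heq', hQ']
    exact this
  have heq0 : 0 ≤ eq' := le_trans (abs_nonneg _) hq
  have hwt : |wt - (f.wt : ℝ)| ≤ (δ : ℝ) := h.wt
  have hw0 : |w0 - (f.w0 : ℝ)| ≤ (δ : ℝ) := h.w0
  have hut : |g.ut - (q.ut : ℝ)| ≤ (δ : ℝ) := hgt
  have hu0 : |g.u0 - (q.u0 : ℝ)| ≤ (δ : ℝ) := hg0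
  have hδ' : (0 : ℝ) ≤ δ := le_trans (abs_nonneg _) hwt
  have key : ∀ x x' : ℝ, |x - x'| ≤ (δ : ℝ) →
      |D / ‖wv‖ ^ 2 * x - Q' * x'| ≤ |Q'| * δ + (|x'| + δ) * eq' := by
    intro x x' hx
    have h1 : D / ‖wv‖ ^ 2 * x - Q' * x' = Q' * (x - x') + (D / ‖wv‖ ^ 2 - Q') * x := by ring
    rw [h1]
    refine le_trans (abs_add_le _ _) ?_
    rw [abs_mul, abs_mul]
    have h2 := mul_le_mul_of_nonneg_left hx (abs_nonneg Q')
    have h3 : |D / ‖wv‖ ^ 2 - Q'| * |x| ≤ eq' * (|x'| + δ) :=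
      mul_le_mul hq (near_abs hx) (abs_nonneg _) heq0
    linarith
  refine ⟨?_, ?_, ?_, ?_⟩
  · have e1 : (((f.qc q).P : ℚ) : ℝ) = Q' * f.wt - q.ut := by
      simp only [QFilm.qc]; push_cast; rw [hQ']
    rw [e1]
    have h1 : cP wt wv g - (Q' * f.wt - q.ut) =
        (D / ‖wv‖ ^ 2 * wt - Q' * f.wt) + -(g.ut - (q.ut : ℝ)) := by
      unfold cP; rw [← hDdef]; ring
    rw [h1]
    refine le_trans (abs_add_le _ _) ?_
    rw [abs_neg]
    have := key wt f.wt hwt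
    linarith
  · have e1 : (((f.qc q).Q : ℚ) : ℝ) = q.u0 - Q' * f.w0 := by
      simp only [QFilm.qc]; push_cast; rw [hQ']
    rw [e1]
    have h1 : cQ w0 wv g - (q.u0 - Q' * f.w0) =
        -(D / ‖wv‖ ^ 2 * w0 - Q' * f.w0) + (g.u0 - (q.u0 : ℝ)) := by
      unfold cQ; rw [← hDdef]; ring
    rw [h1]
    refine le_trans (abs_add_le _ _) ?_
    rw [abs_neg]
    have := key w0 f.w0 hw0
    linarith
  · have h1 := near_dot hgu h.a
    have h2 : ((eD δ q.u f.a : ℚ) : ℝ) ≤ (ε : ℝ) := by exact_mod_cast ha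
    exact le_trans h1 h2
  · have h1 := near_dot hgu h.b
    have h2 : ((eD δ q.u f.b : ℚ) : ℝ) ≤ (ε : ℝ) := by exact_mod_cast hb
    exact le_trans h1 h2

theorem near_film {δ ε : ℚ} (_hδ : 0 ≤ δ) {f : QFilm} {w0 wt : ℝ} {wv a b : E3} {cons : List Con}
    (h : FilmClose δ f w0 wt wv a b cons) (hok : filmOK f δ ε = true) {e : ℚ} (he : 0 ≤ e)
    (he' : e ≤ 1) :
    |‖wv‖ ^ 2 - (f.W2 : ℝ)| ≤ (ε : ℝ) ∧ |rho2 w0 wt wv (e : ℝ) - (f.r2 e : ℝ)| ≤ (ε : ℝ) ∧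
      |(-2 * (e : ℝ) + 2 * w0 * (wt - w0 * e) / ‖wv‖ ^ 2) - (f.dr2 e : ℝ)| ≤ (ε : ℝ) := by
  simp only [filmOK, Bool.and_eq_true, decide_eq_true_eq] at hok
  obtain ⟨⟨⟨hpos, hW1⟩, hR⟩, hDR⟩ := hok
  have hW : |‖wv‖ ^ 2 - ((f.W2 : ℚ) : ℝ)| ≤ ((eD δ f.wv f.wv : ℚ) : ℝ) := by
    have := near_dot h.wv h.wv
    rw [real_inner_self_eq_norm_sq] at this
    exact this
  have hpos' : (0 : ℝ) < ((f.W2 : ℚ) : ℝ) - ((eD δ f.wv f.wv : ℚ) : ℝ) := by exact_mod_cast hpos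
  have hW1' : ((eD δ f.wv f.wv : ℚ) : ℝ) ≤ (ε : ℝ) := by exact_mod_cast hW1
  set eW : ℝ := ((eD δ f.wv f.wv : ℚ) : ℝ) with heW
  set W' : ℝ := ((f.W2 : ℚ) : ℝ) with hW'
  set M : ℝ := |(f.wt : ℝ)| + |(f.w0 : ℝ)| + 2 * δ with hM
  have hR' : (4 * M * δ + M ^ 2 * eW / W') / (W' - eW) ≤ (ε : ℝ) := by
    have := (Rat.cast_le (K := ℝ)).mpr hR
    push_cast at this
    rw [hM]; exact this
  have hDR' : 2 * (2 * (|(f.w0 : ℝ)| + δ) * δ + M * δ + (|(f.w0 : ℝ)| + δ) * M * eW / W') /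
      (W' - eW) ≤ (ε : ℝ) := by
    have := (Rat.cast_le (K := ℝ)).mpr hDR
    push_cast at this
    rw [hM]; exact this
  have hwt : |wt - (f.wt : ℝ)| ≤ (δ : ℝ) := h.wt
  have hw0 : |w0 - (f.w0 : ℝ)| ≤ (δ : ℝ) := h.w0
  have hδ' : (0 : ℝ) ≤ δ := le_trans (abs_nonneg _) hwt
  have heW0 : 0 ≤ eW := le_trans (abs_nonneg _) hW
  have hW'0 : 0 < W' := by linarith
  have he0 : (0 : ℝ) ≤ (e : ℝ) := by exact_mod_cast he
  have he1 : (e : ℝ) ≤ 1 := by exact_mod_cast he'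
  set A : ℝ := wt - w0 * e with hA
  set A' : ℝ := (f.wt : ℝ) - f.w0 * e with hA'
  have hAA : |A - A'| ≤ 2 * δ := by
    have h1 : A - A' = (wt - (f.wt : ℝ)) + -((w0 - (f.w0 : ℝ)) * e) := by rw [hA, hA']; ring
    rw [h1]
    refine le_trans (abs_add_le _ _) ?_
    rw [abs_neg, abs_mul, abs_of_nonneg he0]
    have : |w0 - (f.w0 : ℝ)| * e ≤ δ * 1 := mul_le_mul hw0 he1 he0 hδ'
    linarith
  have hA'M0 : |A'| ≤ |(f.wt : ℝ)| + |(f.w0 : ℝ)| := by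
    have h1 : A' = (f.wt : ℝ) + -((f.w0 : ℝ) * e) := by rw [hA']; ring
    rw [h1]
    refine le_trans (abs_add_le _ _) ?_
    rw [abs_neg, abs_mul, abs_of_nonneg he0]
    have : |(f.w0 : ℝ)| * e ≤ |(f.w0 : ℝ)| * 1 :=
      mul_le_mul_of_nonneg_left he1 (abs_nonneg _)
    linarith
  have hA'M : |A'| ≤ M := by rw [hM]; linarith
  have hAM : |A| ≤ M := by
    have := near_abs hAA
    rw [hM]; linarith
  have hM0 : 0 ≤ M := le_trans (abs_nonneg _) hAM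
  have hw0' : |w0| ≤ |(f.w0 : ℝ)| + δ := near_abs hw0
  refine ⟨le_trans hW hW1', ?_, ?_⟩
  · -- rho2
    have e1 : ((f.r2 e : ℚ) : ℝ) = 1 - (e : ℝ) ^ 2 - A' ^ 2 / W' := by
      simp only [QFilm.r2]; push_cast; rw [hA', hW']
    have e2 : rho2 w0 wt wv (e : ℝ) = 1 - (e : ℝ) ^ 2 - A ^ 2 / ‖wv‖ ^ 2 := by
      unfold rho2; rw [hA]
    rw [e1, e2]
    have h1 : 1 - (e : ℝ) ^ 2 - A ^ 2 / ‖wv‖ ^ 2 - (1 - (e : ℝ) ^ 2 - A' ^ 2 / W') =
        -(A ^ 2 / ‖wv‖ ^ 2 - A' ^ 2 / W') := by ring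
    rw [h1, abs_neg]
    have h2 : |A ^ 2 - A' ^ 2| ≤ 4 * M * δ := by
      have h3 : A ^ 2 - A' ^ 2 = (A - A') * (A + A') := by ring
      rw [h3, abs_mul]
      have h4 : |A + A'| ≤ 2 * M := le_trans (abs_add_le _ _) (by linarith)
      have h5 : |A - A'| * |A + A'| ≤ (2 * δ) * (2 * M) :=
        mul_le_mul hAA h4 (abs_nonneg _) (by linarith)
      linarith
    have h6 := near_div h2 hW hpos'
    refine le_trans h6 (le_trans ?_ hR')
    have h7 : |A' ^ 2 / W'| * eW ≤ M ^ 2 * eW / W' := by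
      rw [abs_div, abs_of_pos hW'0, abs_pow, div_mul_eq_mul_div]
      apply div_le_div_of_nonneg_right _ hW'0.le
      apply mul_le_mul_of_nonneg_right _ heW0
      exact pow_le_pow_left₀ (abs_nonneg _) hA'M 2
    apply div_le_div_of_nonneg_right _ hpos'.le
    linarith
  · have e1 : ((f.dr2 e : ℚ) : ℝ) = -2 * (e : ℝ) + 2 * ((f.w0 : ℝ) * A' / W') := by
      simp only [QFilm.dr2]; push_cast; rw [hA', hW']; ring
    rw [e1]
    have h1 : (-2 * (e : ℝ) + 2 * w0 * A / ‖wv‖ ^ 2) -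
        (-2 * (e : ℝ) + 2 * ((f.w0 : ℝ) * A' / W')) =
        2 * (w0 * A / ‖wv‖ ^ 2 - (f.w0 : ℝ) * A' / W') := by ring
    rw [h1, abs_mul, abs_two]
    have h2 : |w0 * A - (f.w0 : ℝ) * A'| ≤ 2 * (|(f.w0 : ℝ)| + δ) * δ + M * δ := by
      have h3 : w0 * A - (f.w0 : ℝ) * A' = w0 * (A - A') + (w0 - (f.w0 : ℝ)) * A' := by ring
      rw [h3]
      refine le_trans (abs_add_le _ _) ?_
      rw [abs_mul, abs_mul]
      have h4 : |w0| * |A - A'| ≤ (|(f.w0 : ℝ)| + δ) * (2 * δ) :=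
        mul_le_mul hw0' hAA (abs_nonneg _) (by positivity)
      have h5 : |w0 - (f.w0 : ℝ)| * |A'| ≤ δ * M := mul_le_mul hw0 hA'M (abs_nonneg _) hδ'
      linarith
    have h6 := near_div h2 hW hpos'
    have h7 : |(f.w0 : ℝ) * A' / W'| * eW ≤ (|(f.w0 : ℝ)| + δ) * M * eW / W' := by
      rw [abs_div, abs_of_pos hW'0, abs_mul, div_mul_eq_mul_div]
      apply div_le_div_of_nonneg_right _ hW'0.le
      apply mul_le_mul_of_nonneg_right _ heW0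
      exact mul_le_mul (by linarith) hA'M (abs_nonneg _) (by positivity)
    have h8 : (2 * (|(f.w0 : ℝ)| + δ) * δ + M * δ + |(f.w0 : ℝ) * A' / W'| * eW) / (W' - eW) ≤
        (2 * (|(f.w0 : ℝ)| + δ) * δ + M * δ + (|(f.w0 : ℝ)| + δ) * M * eW / W') / (W' - eW) := by
      apply div_le_div_of_nonneg_right _ hpos'.le
      linarith
    have h9 : 2 * ((2 * (|(f.w0 : ℝ)| + δ) * δ + M * δ + (|(f.w0 : ℝ)| + δ) * M * eW / W') /
        (W' - eW)) = 2 * (2 * (|(f.w0 : ℝ)| + δ) * δ + M * δ +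
          (|(f.w0 : ℝ)| + δ) * M * eW / W') / (W' - eW) := by ring
    rw [← h9] at hDR'
    linarith

/-- Concavity: two-sided bounds of `rho2` on a strip. -/
theorem rho2_strip {w0 wt : ℝ} {wv : E3} (hwv : wv ≠ 0) {e0 e1 e : ℝ} (h0 : e0 ≤ e) (h1 : e ≤ e1) :
    min (rho2 w0 wt wv e0) (rho2 w0 wt wv e1) ≤ rho2 w0 wt wv e ∧
      rho2 w0 wt wv e ≤ rho2 w0 wt wv e0 +
        max 0 (-2 * e0 + 2 * w0 * (wt - w0 * e0) / ‖wv‖ ^ 2) * (e1 - e0) := by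
  have hW : 0 < ‖wv‖ ^ 2 := by positivity
  set W : ℝ := ‖wv‖ ^ 2 with hWdef
  set c : ℝ := 1 + w0 ^ 2 / W with hc
  have hc0 : 0 ≤ c := by positivity
  -- the exact expansion at `e0`
  have hexp : ∀ x y : ℝ, rho2 w0 wt wv y = rho2 w0 wt wv x +
      (-2 * x + 2 * w0 * (wt - w0 * x) / W) * (y - x) - c * (y - x) ^ 2 := by
    intro x y
    unfold rho2
    rw [← hWdef, hc]
    field_simp
    ring
  constructor
  · rcases eq_or_lt_of_le (le_trans h0 h1) with h | h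
    · have : e = e0 := le_antisymm (by linarith) h0
      rw [this]; exact min_le_left _ _
    · set m := min (rho2 w0 wt wv e0) (rho2 w0 wt wv e1) with hm
      have ha : m ≤ rho2 w0 wt wv e0 := min_le_left _ _
      have hb : m ≤ rho2 w0 wt wv e1 := min_le_right _ _
      rw [hexp e e0] at ha
      rw [hexp e e1] at hb
      set d := -2 * e + 2 * w0 * (wt - w0 * e) / W with hd
      have h2 : 0 ≤ e1 - e := by linarith
      have h3 : 0 ≤ e - e0 := by linarith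
      have h4 := mul_le_mul_of_nonneg_left ha h2
      have h5 := mul_le_mul_of_nonneg_left hb h3
      have h6 : 0 ≤ c * ((e1 - e) * (e - e0) * (e1 - e0)) := by
        apply mul_nonneg hc0
        apply mul_nonneg (mul_nonneg h2 h3)
        linarith
      have h7 : (e1 - e0) * m ≤ (e1 - e0) * rho2 w0 wt wv e := by nlinarith
      exact le_of_mul_le_mul_left h7 (by linarith)
  · rw [hexp e0 e]
    set d := -2 * e0 + 2 * w0 * (wt - w0 * e0) / W with hd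
    have h2 : d * (e - e0) ≤ max 0 d * (e1 - e0) := by
      have h3 : d * (e - e0) ≤ max 0 d * (e - e0) :=
        mul_le_mul_of_nonneg_right (le_max_right _ _) (by linarith)
      have h4 : max 0 d * (e - e0) ≤ max 0 d * (e1 - e0) :=
        mul_le_mul_of_nonneg_left (by linarith) (le_max_left _ _)
      linarith
    have h5 : 0 ≤ c * (e - e0) ^ 2 := by positivity
    linarith

end Kusner.Num.P
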